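import Pool.Agent.W792.WA.Stm

/-! Project WA: contraction of the hyperbolic distance. -/

set_option autoImplicit false

open MeasureTheory

namespace Pool.Agent.W800.WA.Sc2

open Pool.Agent.W792.WA

/-- the resolvent function -/
noncomputable def be (w : ℝ → ℂ) (s : ℂ) (a : ℝ) : ℂ := w a / (1 - w a * s)

theorem be_meas {w : ℝ → ℂ} (s : ℂ) (hw : Measurable w) : Measurable (be w s) :=
  hw.div (measurable_const.sub (hw.mul_const s))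

/-- integrability of bounded functions -/
theorem bint {E : Type} [NormedAddCommGroup E] [MeasurableSpace E] [BorelSpace E]
    [SecondCountableTopology E] (ρ : Measure ℝ) [IsProbabilityMeasure ρ] {f : ℝ → E}
    (hf : Measurable f) (C : ℝ) (hC : ∀ᵐ a ∂ρ, ‖f a‖ ≤ C) : Integrable f ρ :=
  Integrable.of_bound hf.aestronglyMeasurable C hC

theorem cs (ρ : Measure ℝ) [IsProbabilityMeasure ρ] {f g : ℝ → ℂ}
    (hf : Measurable f) (hg : Measurable g) (C : ℝ) (hC : ∀ᵐ a ∂ρ, ‖f a‖ ≤ C)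
    (hC' : ∀ᵐ a ∂ρ, ‖g a‖ ≤ C) :
    ‖∫ a, f a * g a ∂ρ‖ ^ 2 ≤ (∫ a, ‖f a‖ ^ 2 ∂ρ) * ∫ a, ‖g a‖ ^ 2 ∂ρ := by
  have h1 : ‖∫ a, f a * g a ∂ρ‖ ≤ ∫ a, ‖f a‖ * ‖g a‖ ∂ρ := by
    refine (norm_integral_le_integral_norm _).trans (le_of_eq ?_)
    simp only [norm_mul]
  have m1 : MemLp (fun a => ‖f a‖) (ENNReal.ofReal 2) ρ :=
    MemLp.of_bound hf.norm.aestronglyMeasurable C (by simpa using hC)
  have m2 : MemLp (fun a => ‖g a‖) (ENNReal.ofReal 2) ρ :=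
    MemLp.of_bound hg.norm.aestronglyMeasurable C (by simpa using hC')
  have h2 := integral_mul_le_Lp_mul_Lq_of_nonneg (μ := ρ) (p := 2) (q := 2)
    (Real.HolderConjugate.two_two) (f := fun a => ‖f a‖) (g := fun a => ‖g a‖)
    (Filter.Eventually.of_forall fun a => norm_nonneg _)
    (Filter.Eventually.of_forall fun a => norm_nonneg _) m1 m2
  simp only [Real.rpow_two] at h2
  have i1 : 0 ≤ ∫ a, ‖f a‖ ^ 2 ∂ρ := integral_nonneg fun a => by positivity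
  have i2 : 0 ≤ ∫ a, ‖g a‖ ^ 2 ∂ρ := integral_nonneg fun a => by positivity
  have h3 := h1.trans h2
  calc ‖∫ a, f a * g a ∂ρ‖ ^ 2
      ≤ ((∫ a, ‖f a‖ ^ 2 ∂ρ) ^ (1 / (2 : ℝ)) * (∫ a, ‖g a‖ ^ 2 ∂ρ) ^ (1 / (2 : ℝ))) ^ 2 :=
        pow_le_pow_left₀ (norm_nonneg _) h3 2
    _ = _ := by
        rw [mul_pow, ← Real.sqrt_eq_rpow, ← Real.sqrt_eq_rpow, Real.sq_sqrt i1, Real.sq_sqrt i2]

theorem lin1 (ρ : Measure ℝ) [IsProbabilityMeasure ρ] {f g : ℝ → ℝ} (hf : Integrable f ρ)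
    (hg : Integrable g ρ) (c : ℝ) :
    ∫ a, (f a - 2 * g a + c) ∂ρ = (∫ a, f a ∂ρ) - 2 * (∫ a, g a ∂ρ) + c := by
  have h1 : Integrable (fun a => f a - 2 * g a) ρ := hf.sub (hg.const_mul 2)
  have h2 : Integrable (fun a => 2 * g a) ρ := hg.const_mul 2
  rw [integral_add h1 (integrable_const _), integral_sub hf h2, integral_const_mul,
    integral_const]
  simp

theorem lin2 (ρ : Measure ℝ) [IsProbabilityMeasure ρ] {f g : ℝ → ℝ} (hf : Integrable f ρ)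
    (hg : Integrable g ρ) (c : ℝ) :
    ∫ a, (1 + 2 * g a + c * f a) ∂ρ = 1 + 2 * (∫ a, g a ∂ρ) + c * ∫ a, f a ∂ρ := by
  have h2 : Integrable (fun a => 2 * g a) ρ := hg.const_mul 2
  have h3 : Integrable (fun a => 1 + 2 * g a) ρ := (integrable_const _).add h2
  have h4 : Integrable (fun a => c * f a) ρ := hf.const_mul c
  rw [integral_add h3 h4, integral_add (integrable_const _) h2, integral_const_mul,
    integral_const_mul, integral_const]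
  simp

section one
variable (ρ : Measure ℝ) [IsProbabilityMeasure ρ] (w : ℝ → ℂ) (q : ℝ) (s : ℂ)

omit [IsProbabilityMeasure ρ] in
theorem be_bd (hq0 : 0 ≤ q) (hq : q < 1) (hwq : ∀ᵐ a ∂ρ, ‖w a‖ ≤ q) (hs : ‖s‖ ≤ 1) :
    ∀ᵐ a ∂ρ, ‖be w s a‖ ≤ 1 / (1 - q) ∧ 1 - w a * s ≠ 0 ∧ ‖be w s a‖ ≤ q * ‖1 + s * be w s a‖ := by
  filter_upwards [hwq] with a ha
  have h1 : ‖w a * s‖ ≤ q := by
    rw [norm_mul]
    calc ‖w a‖ * ‖s‖ ≤ q * 1 := mul_le_mul ha hs (norm_nonneg _) hq0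
      _ = q := mul_one q
  have h2 : 1 - q ≤ ‖1 - w a * s‖ := by
    have := norm_sub_norm_le (1 : ℂ) (w a * s)
    rw [norm_one] at this
    linarith
  have h3 : 0 < ‖1 - w a * s‖ := by linarith
  have h4 : 1 - w a * s ≠ 0 := norm_pos_iff.1 h3
  refine ⟨?_, h4, ?_⟩
  · unfold be
    rw [norm_div]
    exact div_le_div₀ zero_le_one (by linarith) (by linarith) h2
  · have h5 : be w s a = w a * (1 + s * be w s a) := by
      unfold be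
      field_simp
      ring
    calc ‖be w s a‖ = ‖w a‖ * ‖1 + s * be w s a‖ := by
          conv_lhs => rw [h5]
          rw [norm_mul]
      _ ≤ q * ‖1 + s * be w s a‖ := mul_le_mul_of_nonneg_right ha (norm_nonneg _)

theorem one (hw : Measurable w) (hq0 : 0 ≤ q) (hq : q < 1) (hwq : ∀ᵐ a ∂ρ, ‖w a‖ ≤ q)
    (hs : ‖s‖ ≤ 1) :
    (1 - ‖s‖ ^ 2) * ∫ a, ‖be w s a - Bs ρ w s‖ ^ 2 ∂ρ
      ≤ q ^ 2 * (‖1 + s * Bs ρ w s‖ ^ 2 - ‖Bs ρ w s‖ ^ 2) ∧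
    (1 - q ^ 2) * ∫ a, ‖be w s a - Bs ρ w s‖ ^ 2 ∂ρ
      ≤ q ^ 2 * (‖1 + s * Bs ρ w s‖ ^ 2 - ‖Bs ρ w s‖ ^ 2) := by
  have hbd := be_bd ρ w q s hq0 hq hwq hs
  have hm := be_meas s hw
  have hb : Integrable (be w s) ρ := bint ρ hm (1 / (1 - q)) (hbd.mono fun a h => h.1)
  set B := Bs ρ w s with hB
  have hBe : B = ∫ a, be w s a ∂ρ := rfl
  have hb2 : Integrable (fun a => ‖be w s a‖ ^ 2) ρ := by
    refine bint ρ (hm.norm.pow_const 2) ((1 / (1 - q)) ^ 2) (hbd.mono fun a h => ?_)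
    rw [Real.norm_of_nonneg (by positivity)]
    exact pow_le_pow_left₀ (norm_nonneg _) h.1 2
  set N := ∫ a, ‖be w s a‖ ^ 2 ∂ρ with hN
  have hre : ∀ c : ℂ, ∫ a, (c * be w s a).re ∂ρ = (c * B).re := by
    intro c
    have h1 := integral_re (hb.const_mul c)
    rw [integral_const_mul] at h1
    exact h1
  have hrei : ∀ c : ℂ, Integrable (fun a => (c * be w s a).re) ρ := fun c => (hb.const_mul c).re
  -- variance
  have hV : ∫ a, ‖be w s a - B‖ ^ 2 ∂ρ = N - ‖B‖ ^ 2 := by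
    have h1 : ∀ a, ‖be w s a - B‖ ^ 2 =
        ‖be w s a‖ ^ 2 - 2 * ((starRingEnd ℂ) B * be w s a).re + ‖B‖ ^ 2 := by
      intro a
      simp only [← Complex.normSq_eq_norm_sq, Complex.normSq_apply, Complex.sub_re,
        Complex.sub_im, Complex.mul_re, Complex.conj_re, Complex.conj_im]
      ring
    simp only [h1]
    rw [lin1 ρ hb2 (hrei _), hre]
    have h2 : ((starRingEnd ℂ) B * B).re = ‖B‖ ^ 2 := by
      rw [← Complex.normSq_eq_norm_sq, Complex.normSq_apply, Complex.mul_re, Complex.conj_re,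
        Complex.conj_im]
      ring
    rw [h2]
    ring
  have hVn : 0 ≤ ∫ a, ‖be w s a - B‖ ^ 2 ∂ρ := integral_nonneg fun a => by positivity
  -- second moment of 1 + s b
  have hI : ∀ z : ℂ, ‖1 + s * z‖ ^ 2 = 1 + 2 * (s * z).re + ‖s‖ ^ 2 * ‖z‖ ^ 2 := by
    intro z
    rw [← mul_pow, ← norm_mul]
    simp only [← Complex.normSq_eq_norm_sq, Complex.normSq_apply, Complex.add_re,
      Complex.add_im, Complex.one_re, Complex.one_im]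
    ring
  have hMi : Integrable (fun a => ‖1 + s * be w s a‖ ^ 2) ρ := by
    simp only [hI]
    exact ((integrable_const _).add ((hrei s).const_mul 2)).add (hb2.const_mul _)
  have hM : ∫ a, ‖1 + s * be w s a‖ ^ 2 ∂ρ = 1 + 2 * (s * B).re + ‖s‖ ^ 2 * N := by
    simp only [hI]
    rw [lin2 ρ hb2 (hrei s), hre]
  have hle : N ≤ q ^ 2 * ∫ a, ‖1 + s * be w s a‖ ^ 2 ∂ρ := by
    rw [hN, ← integral_const_mul]
    refine integral_mono_ae hb2 (hMi.const_mul _) (hbd.mono fun a h => ?_)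
    have h1 := pow_le_pow_left₀ (norm_nonneg _) h.2.2 2
    rw [mul_pow] at h1
    exact h1
  have hs2 : ‖s‖ ^ 2 ≤ 1 := by
    have := pow_le_pow_left₀ (norm_nonneg _) hs 2
    simpa using this
  have hq2 : q ^ 2 ≤ 1 := by nlinarith
  rw [hM] at hle
  rw [hV] at hVn ⊢
  rw [hI B]
  have hs0 : 0 ≤ ‖s‖ ^ 2 := by positivity
  have hq20 : 0 ≤ q ^ 2 := by positivity
  have hB0 : 0 ≤ ‖B‖ ^ 2 := by positivity
  constructor
  · nlinarith [mul_nonneg (sub_nonneg.2 hs2) hVn, mul_nonneg (sub_nonneg.2 hq2)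
      (mul_nonneg hs0 hVn), mul_nonneg (sub_nonneg.2 hq2) hB0]
  · nlinarith [mul_nonneg hq20 (mul_nonneg (sub_nonneg.2 hs2) hVn),
      mul_nonneg (sub_nonneg.2 hq2) hB0]

end one

theorem main : S_SC1 → S_SC2 := by
  intro hSC1 ρ _ w q s₁ s₂ hw hq0 hq hwq hs1 hs2
  have hqs : ∀ s : ℂ, ‖s‖ ≤ 1 → q * ‖s‖ < 1 := by
    intro s hs
    nlinarith [norm_nonneg s]
  obtain ⟨_, n1, u1, _, _⟩ := hSC1 ρ w q s₁ hw hq0 hq.le hwq hs1 (hqs _ hs1)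
  obtain ⟨_, n2, u2, _, _⟩ := hSC1 ρ w q s₂ hw hq0 hq.le hwq hs2 (hqs _ hs2)
  obtain ⟨a1, b1⟩ := one ρ w q s₁ hw hq0 hq hwq hs1
  obtain ⟨a2, b2⟩ := one ρ w q s₂ hw hq0 hq hwq hs2
  have hbd1 := be_bd ρ w q s₁ hq0 hq hwq hs1
  have hbd2 := be_bd ρ w q s₂ hq0 hq hwq hs2
  have hm1 := be_meas s₁ hw
  have hm2 := be_meas s₂ hw
  have hi1 : Integrable (be w s₁) ρ := bint ρ hm1 (1 / (1 - q)) (hbd1.mono fun a h => h.1)
  have hi2 : Integrable (be w s₂) ρ := bint ρ hm2 (1 / (1 - q)) (hbd2.mono fun a h => h.1)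
  have hi12 : Integrable (fun a => be w s₁ a * be w s₂ a) ρ := by
    refine bint ρ (hm1.mul hm2) (1 / (1 - q) * (1 / (1 - q))) ?_
    filter_upwards [hbd1, hbd2] with a h1 h2
    rw [norm_mul]
    exact mul_le_mul h1.1 h2.1 (norm_nonneg _) (h1.1.trans' (norm_nonneg _))
  set B₁ := Bs ρ w s₁ with hB1
  set B₂ := Bs ρ w s₂ with hB2
  have hBe1 : ∫ a, be w s₁ a ∂ρ = B₁ := rfl
  have hBe2 : ∫ a, be w s₂ a ∂ρ = B₂ := rfl
  set V₁ := ∫ a, ‖be w s₁ a - B₁‖ ^ 2 ∂ρ with hV1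
  set V₂ := ∫ a, ‖be w s₂ a - B₂‖ ^ 2 ∂ρ with hV2
  have hV1n : 0 ≤ V₁ := integral_nonneg fun a => by positivity
  have hV2n : 0 ≤ V₂ := integral_nonneg fun a => by positivity
  -- covariance
  set Cv := ∫ a, (be w s₁ a - B₁) * (be w s₂ a - B₂) ∂ρ with hCv
  have hcs : ‖Cv‖ ^ 2 ≤ V₁ * V₂ := by
    refine cs ρ (hm1.sub_const B₁) (hm2.sub_const B₂)
      (max (1 / (1 - q) + ‖B₁‖) (1 / (1 - q) + ‖B₂‖)) ?_ ?_
    · refine hbd1.mono fun a h => le_max_of_le_left ?_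
      exact (norm_sub_le _ _).trans (add_le_add h.1 le_rfl)
    · refine hbd2.mono fun a h => le_max_of_le_right ?_
      exact (norm_sub_le _ _).trans (add_le_add h.1 le_rfl)
  have hCe : Cv = (∫ a, be w s₁ a * be w s₂ a ∂ρ) - B₁ * B₂ := by
    have h1 : ∀ a, (be w s₁ a - B₁) * (be w s₂ a - B₂) =
        be w s₁ a * be w s₂ a - (B₁ * be w s₂ a + B₂ * be w s₁ a - B₁ * B₂) := by
      intro a
      ring
    have h2 : Integrable (fun a => B₁ * be w s₂ a) ρ := hi2.const_mul _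
    have h3 : Integrable (fun a => B₂ * be w s₁ a) ρ := hi1.const_mul _
    have h4 : Integrable (fun a => B₁ * be w s₂ a + B₂ * be w s₁ a) ρ := h2.add h3
    have h5 : Integrable (fun a => B₁ * be w s₂ a + B₂ * be w s₁ a - B₁ * B₂) ρ :=
      h4.sub (integrable_const _)
    rw [hCv]
    simp only [h1]
    rw [integral_sub hi12 h5, integral_sub h4 (integrable_const _), integral_add h2 h3,
      integral_const_mul, integral_const_mul, hBe1, hBe2, integral_const]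
    simp only [probReal_univ, one_smul]
    ring
  have hdiff : B₁ - B₂ = (s₁ - s₂) * ∫ a, be w s₁ a * be w s₂ a ∂ρ := by
    rw [← hBe1, ← hBe2, ← integral_sub hi1 hi2, ← integral_const_mul]
    refine integral_congr_ae ?_
    filter_upwards [hbd1, hbd2] with a h1 h2
    have e1 := h1.2.1
    have e2 := h2.2.1
    unfold be
    field_simp
    ring
  have hU : (Us ρ w s₁ - Us ρ w s₂) * ((1 + s₁ * B₁) * (1 + s₂ * B₂)) = (s₁ - s₂) * Cv := by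
    unfold Us
    rw [← hB1, ← hB2, hCe, mul_sub, ← hdiff]
    have q1 : B₁ / (1 + s₁ * B₁) * (1 + s₁ * B₁) = B₁ := div_mul_cancel₀ _ n1
    have q2 : B₂ / (1 + s₂ * B₂) * (1 + s₂ * B₂) = B₂ := div_mul_cancel₀ _ n2
    calc (B₁ / (1 + s₁ * B₁) - B₂ / (1 + s₂ * B₂)) * ((1 + s₁ * B₁) * (1 + s₂ * B₂))
        = B₁ / (1 + s₁ * B₁) * (1 + s₁ * B₁) * (1 + s₂ * B₂)
          - B₂ / (1 + s₂ * B₂) * (1 + s₂ * B₂) * (1 + s₁ * B₁) := by ring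
      _ = B₁ * (1 + s₂ * B₂) - B₂ * (1 + s₁ * B₁) := by rw [q1, q2]
      _ = _ := by ring
  have hUn : ‖Us ρ w s₁ - Us ρ w s₂‖ ^ 2 * (‖1 + s₁ * B₁‖ ^ 2 * ‖1 + s₂ * B₂‖ ^ 2) =
      ‖s₁ - s₂‖ ^ 2 * ‖Cv‖ ^ 2 := by
    rw [← mul_pow, ← mul_pow, ← norm_mul, ← norm_mul, hU, norm_mul, mul_pow]
  have hX1 : ‖1 + s₁ * B₁‖ ^ 2 - ‖B₁‖ ^ 2 = (1 - ‖Us ρ w s₁‖ ^ 2) * ‖1 + s₁ * B₁‖ ^ 2 := by
    unfold Us
    rw [← hB1, norm_div, div_pow]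
    have : ‖1 + s₁ * B₁‖ ^ 2 ≠ 0 := pow_ne_zero _ (norm_ne_zero_iff.2 n1)
    field_simp
  have hX2 : ‖1 + s₂ * B₂‖ ^ 2 - ‖B₂‖ ^ 2 = (1 - ‖Us ρ w s₂‖ ^ 2) * ‖1 + s₂ * B₂‖ ^ 2 := by
    unfold Us
    rw [← hB2, norm_div, div_pow]
    have : ‖1 + s₂ * B₂‖ ^ 2 ≠ 0 := pow_ne_zero _ (norm_ne_zero_iff.2 n2)
    field_simp
  rw [hX1] at a1 b1
  rw [hX2] at a2 b2
  have p1 : 0 < ‖1 + s₁ * B₁‖ ^ 2 := by
    have := norm_pos_iff.2 n1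
    positivity
  have p2 : 0 < ‖1 + s₂ * B₂‖ ^ 2 := by
    have := norm_pos_iff.2 n2
    positivity
  have pD : 0 < ‖1 + s₁ * B₁‖ ^ 2 * ‖1 + s₂ * B₂‖ ^ 2 := mul_pos p1 p2
  have hss : 0 ≤ ‖s₁ - s₂‖ ^ 2 := by positivity
  have e1 : 0 ≤ 1 - ‖s₁‖ ^ 2 := by nlinarith [norm_nonneg s₁]
  have e2 : 0 ≤ 1 - ‖s₂‖ ^ 2 := by nlinarith [norm_nonneg s₂]
  have e3 : 0 ≤ 1 - q ^ 2 := by nlinarith
  set X₁ := (1 - ‖Us ρ w s₁‖ ^ 2) * ‖1 + s₁ * B₁‖ ^ 2 with hXX1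
  set X₂ := (1 - ‖Us ρ w s₂‖ ^ 2) * ‖1 + s₂ * B₂‖ ^ 2 with hXX2
  constructor
  · refine le_of_mul_le_mul_right ?_ pD
    calc ‖Us ρ w s₁ - Us ρ w s₂‖ ^ 2 * ((1 - ‖s₁‖ ^ 2) * (1 - ‖s₂‖ ^ 2)) *
          (‖1 + s₁ * B₁‖ ^ 2 * ‖1 + s₂ * B₂‖ ^ 2)
        = ((1 - ‖s₁‖ ^ 2) * (1 - ‖s₂‖ ^ 2)) * (‖s₁ - s₂‖ ^ 2 * ‖Cv‖ ^ 2) := by
          rw [← hUn]; ring
      _ ≤ ((1 - ‖s₁‖ ^ 2) * (1 - ‖s₂‖ ^ 2)) * (‖s₁ - s₂‖ ^ 2 * (V₁ * V₂)) := by gcongr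
      _ = ‖s₁ - s₂‖ ^ 2 * (((1 - ‖s₁‖ ^ 2) * V₁) * ((1 - ‖s₂‖ ^ 2) * V₂)) := by ring
      _ ≤ ‖s₁ - s₂‖ ^ 2 * ((q ^ 2 * X₁) * (q ^ 2 * X₂)) := by
          apply mul_le_mul_of_nonneg_left _ hss
          apply mul_le_mul a1 a2 (mul_nonneg e2 hV2n)
          exact (mul_nonneg e1 hV1n).trans a1
      _ = q ^ 4 * ‖s₁ - s₂‖ ^ 2 * ((1 - ‖Us ρ w s₁‖ ^ 2) * (1 - ‖Us ρ w s₂‖ ^ 2)) *
          (‖1 + s₁ * B₁‖ ^ 2 * ‖1 + s₂ * B₂‖ ^ 2) := by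
          rw [hXX1, hXX2]; ring
  · refine le_of_mul_le_mul_right ?_ pD
    calc ‖Us ρ w s₁ - Us ρ w s₂‖ ^ 2 * (1 - q ^ 2) ^ 2 *
          (‖1 + s₁ * B₁‖ ^ 2 * ‖1 + s₂ * B₂‖ ^ 2)
        = ((1 - q ^ 2) * (1 - q ^ 2)) * (‖s₁ - s₂‖ ^ 2 * ‖Cv‖ ^ 2) := by
          rw [← hUn]; ring
      _ ≤ ((1 - q ^ 2) * (1 - q ^ 2)) * (‖s₁ - s₂‖ ^ 2 * (V₁ * V₂)) := by gcongr
      _ = ‖s₁ - s₂‖ ^ 2 * (((1 - q ^ 2) * V₁) * ((1 - q ^ 2) * V₂)) := by ring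
      _ ≤ ‖s₁ - s₂‖ ^ 2 * ((q ^ 2 * X₁) * (q ^ 2 * X₂)) := by
          apply mul_le_mul_of_nonneg_left _ hss
          apply mul_le_mul b1 b2 (mul_nonneg e3 hV2n)
          exact (mul_nonneg e3 hV1n).trans b1
      _ = q ^ 4 * ‖s₁ - s₂‖ ^ 2 * ((1 - ‖Us ρ w s₁‖ ^ 2) * (1 - ‖Us ρ w s₂‖ ^ 2)) *
          (‖1 + s₁ * B₁‖ ^ 2 * ‖1 + s₂ * B₂‖ ^ 2) := by
          rw [hXX1, hXX2]; ring

end Pool.Agent.W800.WA.Sc2
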