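import Pool.Agent.W792.WA.Stm

/-! Project WA: laws of the future levels. -/

set_option autoImplicit false

open MeasureTheory

namespace Pool.Agent.W800.WA.Fut

open Pool.Agent.W792.WA

/-- the uniform measure -/
noncomputable abbrev mu : Measure ℝ := volume.restrict (Set.Ioc (0 : ℝ) 1)

instance mu_prob : IsProbabilityMeasure mu := by
  constructor
  rw [Measure.restrict_apply_univ, Real.volume_Ioc]
  simp

/-- the product measure -/
noncomputable def PP : Measure (ℕ → ℝ) := Measure.infinitePi (fun _ : ℕ => mu)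

instance PP_prob : IsProbabilityMeasure PP := by unfold PP; infer_instance

/-- put a value in front -/
def cns (p : ℝ × (ℕ → ℝ)) : ℕ → ℝ := fun n => Nat.casesOn n p.1 p.2

theorem cns_zero (p : ℝ × (ℕ → ℝ)) : cns p 0 = p.1 := rfl

theorem cns_succ (p : ℝ × (ℕ → ℝ)) (n : ℕ) : cns p (n + 1) = p.2 n := rfl

theorem cns_meas : Measurable cns := by
  apply measurable_pi_lambda
  intro n
  cases n with
  | zero => exact measurable_fst
  | succ n => exact (measurable_pi_apply n).comp measurable_snd

theorem map_cns : (mu.prod PP).map cns = PP := by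
  classical
  refine Measure.eq_infinitePi (fun _ : ℕ => mu) ?_
  intro s t ht
  rw [Measure.map_apply cns_meas (MeasurableSet.pi s.countable_toSet fun i _ => ht i)]
  let s' : Finset ℕ := (s.erase 0).image Nat.pred
  have hs' : ∀ j, j ∈ s' ↔ j + 1 ∈ s := by
    intro j
    simp only [s', Finset.mem_image, Finset.mem_erase]
    constructor
    · rintro ⟨a, ⟨ha, has⟩, rfl⟩
      rwa [← Nat.succ_eq_add_one, Nat.succ_pred_eq_of_ne_zero ha]
    · intro h
      exact ⟨j + 1, ⟨Nat.succ_ne_zero j, h⟩, rfl⟩
  have h1 : cns ⁻¹' (Set.pi s t) =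
      (if 0 ∈ s then t 0 else Set.univ) ×ˢ (Set.pi (s' : Set ℕ) fun j => t (j + 1)) := by
    ext p
    simp only [Set.mem_preimage, Set.mem_pi, Set.mem_prod, Finset.mem_coe]
    constructor
    · intro h
      refine ⟨?_, fun j hj => h (j + 1) ((hs' j).1 hj)⟩
      by_cases h0 : 0 ∈ s
      · rw [if_pos h0]
        exact h 0 h0
      · rw [if_neg h0]
        trivial
    · rintro ⟨ha, hb⟩ i hi
      cases i with
      | zero =>
        rw [if_pos hi] at ha
        exact ha
      | succ i => exact hb i ((hs' i).2 hi)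
  have h2 : ∏ i ∈ s, mu (t i) = (if 0 ∈ s then mu (t 0) else 1) * ∏ j ∈ s', mu (t (j + 1)) := by
    have h3 : ∏ j ∈ s', mu (t (j + 1)) = ∏ i ∈ s.erase 0, mu (t i) := by
      rw [Finset.prod_image]
      · refine Finset.prod_congr rfl fun i hi => ?_
        have : i ≠ 0 := (Finset.mem_erase.1 hi).1
        rw [← Nat.succ_eq_add_one, Nat.succ_pred_eq_of_ne_zero this]
      · intro a ha b hb hab
        have ha' : a ≠ 0 := (Finset.mem_erase.1 ha).1
        have hb' : b ≠ 0 := (Finset.mem_erase.1 hb).1
        exact Nat.pred_inj (Nat.pos_of_ne_zero ha') (Nat.pos_of_ne_zero hb') hab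
    rw [h3]
    by_cases h0 : 0 ∈ s
    · rw [if_pos h0, Finset.mul_prod_erase s (fun i => mu (t i)) h0]
    · rw [if_neg h0, one_mul, Finset.erase_eq_of_notMem h0]
  rw [h1, h2, Measure.prod_prod]
  congr 1
  · by_cases h0 : 0 ∈ s
    · rw [if_pos h0, if_pos h0]
    · rw [if_neg h0, if_neg h0, measure_univ]
  · exact Measure.infinitePi_pi (fun _ : ℕ => mu) (fun i _ => ht (i + 1))

/-- the random series -/
noncomputable def XX (ψ : C(UnitAddCircle, ℝ)) (l : ℕ → ℝ) (n : ℕ) (ω : ℕ → ℝ) : ℝ :=
  ∑' j, l (n + j) * ψ ((ω j : ℝ) : UnitAddCircle)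

theorem main : S_FUT := by
  intro ψ hψ l hl hsum
  have hsn : ∀ n, Summable (fun j => l (n + j)) := by
    intro n
    have := (summable_nat_add_iff n).2 hsum
    simpa [add_comm] using this
  have hbd : ∀ n j (ω : ℕ → ℝ), ‖l (n + j) * ψ ((ω j : ℝ) : UnitAddCircle)‖ ≤ l (n + j) := by
    intro n j ω
    rw [norm_mul, Real.norm_of_nonneg (hl _).le]
    calc l (n + j) * ‖ψ ((ω j : ℝ) : UnitAddCircle)‖ ≤ l (n + j) * 1 :=
          mul_le_mul_of_nonneg_left (hψ.bound _) (hl _).le
      _ = _ := mul_one _
  have hcψ : Continuous (fun x : ℝ => ψ (x : UnitAddCircle)) :=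
    ψ.continuous.comp (AddCircle.continuous_mk' (1 : ℝ))
  have hXc : ∀ n, Continuous (XX ψ l n) := by
    intro n
    refine continuous_tsum (fun j => ?_) (hsn n) (fun j ω => hbd n j ω)
    exact continuous_const.mul (hcψ.comp (continuous_apply j))
  have hXm : ∀ n, Measurable (XX ψ l n) := fun n => (hXc n).measurable
  have hsX : ∀ n (ω : ℕ → ℝ), Summable (fun j => l (n + j) * ψ ((ω j : ℝ) : UnitAddCircle)) :=
    fun n ω => Summable.of_norm_bounded (hsn n) (fun j => hbd n j ω)
  have hrec : ∀ n (p : ℝ × (ℕ → ℝ)), XX ψ l n (cns p) =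
      l n * ψ (p.1 : UnitAddCircle) + XX ψ l (n + 1) p.2 := by
    intro n p
    unfold XX
    rw [(hsX n (cns p)).tsum_eq_zero_add]
    simp only [cns_zero, cns_succ, add_zero]
    congr 1
    refine tsum_congr fun j => ?_
    have : n + (j + 1) = n + 1 + j := by ring
    rw [this]
  have hfm : ∀ c : ℝ, Measurable (fun φ : ℝ => c * ψ (φ : UnitAddCircle)) := fun c =>
    (continuous_const.mul hcψ).measurable
  have hconv : ∀ n, PP.map (XX ψ l n) = (lev ψ (l n)).conv (PP.map (XX ψ l (n + 1))) := by
    intro n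
    unfold Measure.conv lev
    rw [Measure.map_prod_map mu PP (hfm _) (hXm _),
      Measure.map_map measurable_add ((hfm _).prodMap (hXm _))]
    conv_lhs => rw [← map_cns]
    rw [Measure.map_map (hXm _) cns_meas]
    congr 1
    funext p
    exact hrec n p
  have hprob : ∀ n, IsProbabilityMeasure (PP.map (XX ψ l n)) := fun n =>
    Measure.isProbabilityMeasure_map (hXm n).aemeasurable
  have hat : ∀ n (c : ℝ), PP.map (XX ψ l n) {c} = 0 := by
    intro n c
    rw [hconv n]
    have := hprob (n + 1)
    have hlp : IsProbabilityMeasure (lev ψ (l n)) :=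
      Measure.isProbabilityMeasure_map (hfm _).aemeasurable
    have hl0 : ∀ b : ℝ, lev ψ (l n) {b} = 0 := by
      intro b
      unfold lev
      rw [Measure.map_apply (hfm _) (measurableSet_singleton b),
        Measure.restrict_apply ((hfm _) (measurableSet_singleton b))]
      have h1 := hψ.atom (b / l n)
      rw [← h1]
      congr 1
      ext φ
      simp only [Set.mem_inter_iff, Set.mem_preimage, Set.mem_singleton_iff, Set.mem_ofPred_eq]
      have hln := (hl n).ne'
      constructor
      · rintro ⟨h2, h3⟩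
        refine ⟨h3, ?_⟩
        rw [← h2]
        field_simp
      · rintro ⟨h2, h3⟩
        refine ⟨?_, h2⟩
        rw [h3]
        field_simp
    unfold Measure.conv
    rw [Measure.map_apply measurable_add (measurableSet_singleton c),
      Measure.prod_apply_symm (measurable_add (measurableSet_singleton c))]
    rw [lintegral_eq_zero_iff (measurable_measure_prodMk_right
      (measurable_add (measurableSet_singleton c)))]
    refine Filter.Eventually.of_forall fun y => ?_
    have h2 : (fun x : ℝ => (x, y)) ⁻¹' ((fun p : ℝ × ℝ => p.1 + p.2) ⁻¹' {c}) = {c - y} := by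
      ext x
      simp only [Set.mem_preimage, Set.mem_singleton_iff]
      constructor
      · intro h; linarith
      · intro h; linarith
    show lev ψ (l n) ((fun x : ℝ => (x, y)) ⁻¹' ((fun p : ℝ × ℝ => p.1 + p.2) ⁻¹' {c})) = 0
    rw [h2]
    exact hl0 _
  refine ⟨fun n => PP.map (XX ψ l n), hprob, hconv, ?_, ?_⟩
  · intro n
    show PP.map (XX ψ l n) _ = 0
    rw [Measure.map_apply (hXm n) measurableSet_Icc.compl]
    have h1 : XX ψ l n ⁻¹' (Set.Icc (-(∑' j, l (n + j))) (∑' j, l (n + j)))ᶜ = ∅ := by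
      ext ω
      simp only [Set.mem_preimage, Set.mem_compl_iff, Set.mem_empty_iff_false, iff_false, not_not]
      rw [Set.mem_Icc, ← abs_le]
      exact tsum_of_norm_bounded (hsn n).hasSum (fun j => hbd n j ω)
    rw [h1, measure_empty]
  · intro n a b
    have h1 : PP.map (XX ψ l n) {a, b} ≤ PP.map (XX ψ l n) {a} + PP.map (XX ψ l n) {b} := by
      rw [show ({a, b} : Set ℝ) = {a} ∪ {b} from rfl]
      exact measure_union_le _ _
    rw [hat, hat, add_zero] at h1
    exact lt_of_le_of_lt h1 zero_lt_one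

end Pool.Agent.W800.WA.Fut
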