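import Pool.Agent.W792.WA.Stm

/-! Project WA: scaling of the law. -/

set_option autoImplicit false

open MeasureTheory

namespace Pool.Agent.W800.WA.Sca

open Pool.Agent.W792.WA

theorem main : S_SCA := by
  intro ν _ lam _ d Q hQ
  have h1 : Pn (ν.map fun x => lam * x) (Fin d → ℤ) =
      (Pn ν (Fin d → ℤ)).map (fun v y => lam * v y) := by
    unfold Pn
    exact (Measure.infinitePi_map_pi (fun _ : Fin d → ℤ => ν) (f := fun _ x => lam * x)
      (fun _ => measurable_const_mul lam)).symm
  rw [h1] at hQ
  refine ae_of_ae_map (f := fun (v : (Fin d → ℤ) → ℝ) y => lam * v y) ?_ hQ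
  exact (measurable_pi_lambda _ fun y => (measurable_pi_apply y).const_mul lam).aemeasurable

end Pool.Agent.W800.WA.Sca
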